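import Pool.Agent.Helper87.BF.AsmA
import Pool.Agent.Helper87.BF.TAB
import Pool.Agent.Helper55.BT.ADJ
import Pool.Agent.Helper58.BT.DVB
import Pool.Agent.Helper43.BT.TRS
import Pool.Agent.Helper12.BT.PRK
import Pool.Agent.Helper58.BT.Glue
import Pool.Agent.Helper52.VF.AP3G

/-!
# Project BT: assembly
-/

set_option autoImplicit false

namespace Pool.Agent.Helper87.BF.Asm

open Pool.Agent.Helper27.VF Pool.Agent.Helper38.VF Pool.Agent.Helper38.VF.Asm2
open Pool.Agent.Helper52.VFBase Pool.Agent.Helper61.BT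

universe u

theorem t_TAB : TabStmt.{u} := Pool.Agent.Helper87.BF.tab fac orb t_FRB
theorem t_ADJ : AdjStmt.{u} := Pool.Agent.Helper55.BT.adj pth ora orb
theorem t_DVB : DvbStmt.{u} := Pool.Agent.Helper58.BT.dvb t_LMB t_ADJ t_DRB t_DXB orb
theorem t_TRS : TrsStmt.{u} := Pool.Agent.Helper43.BT.trs
theorem t_PRK : PrkStmt.{u} := Pool.Agent.Helper12.BT.prk t_KUR
theorem t_INB' : InbStmt.{u} := t_INB t_TAB t_DVB t_TRS
theorem t_RKB' : RkbStmt.{u} := t_RKB t_PRK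

/-- A finitely generated group with bounded orders of the finite subgroups satisfies `Con` in every
setting. -/
theorem con (D : Type u) [Group D] (hG : Group.FG D)
    (hN : ∃ N : ℕ, ∀ F : Subgroup D, (F : Set D).Finite → Nat.card F ≤ N)
    (W : Type u) [MulAction D W] (G G₀ : SimpleGraph W) (w : W) (p : Ultrafilter W)
    (hst : Stg D G G₀ w p) : Con D G p :=
  Pool.Agent.Helper58.BT.con_of_bdd t_INB' t_RKB' D hG hN W G G₀ w p hst

/-- Coset form. -/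
theorem t_AP3 (Γ : Type u) [Group Γ] (S : Set Γ) (hS : Subgroup.closure S = ⊤)
    (h1 : (1 : Γ) ∉ S) (D : Subgroup Γ) (hD : Group.FG D)
    (hN : ∃ N : ℕ, ∀ F : Subgroup D, (F : Set D).Finite → Nat.card F ≤ N)
    (b : Γ) (hinf : {s | s ∈ S ∧ s * b⁻¹ ∈ D}.Infinite) :
    ∃ φ : ℕ → Set Γ,
    (∀ i, ((SimpleGraph.fromRel fun a b : Γ => a⁻¹ * b ∈ S).induce (φ i)).Connected) ∧
    (∀ i j, i ≠ j → Disjoint (φ i) (φ j)) ∧
    ∀ i j, i ≠ j → ∃ a ∈ φ i, ∃ b ∈ φ j,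
      (SimpleGraph.fromRel fun a b : Γ => a⁻¹ * b ∈ S).Adj a b :=
  Pool.Agent.Helper52.AP3.ap3_gen knd Γ S hS h1 D hD
    (fun W _ G G₀ w p hst => con D hD hN W G G₀ w p hst) b hinf

end Pool.Agent.Helper87.BF.Asm
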