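import Pool.Agent.Helper38.VF.Asm2
import Pool.Agent.Helper61.BT.Goals
import Pool.Agent.Helper23.BT.FRB
import Pool.Agent.Helper48.BT.Adapt
import Pool.Agent.Helper39.BT.TFB
import Pool.Agent.Helper96.BT.LMB
import Pool.Agent.Helper26.BT.INB
import Pool.Agent.Helper95.BT.PRJ
import Pool.Agent.Helper78.BT.TRG
import Pool.Agent.Helper49.BT.T2B
import Pool.Agent.Helper24.BT.TCH
import Pool.Agent.Helper50.BT.RKB
import Pool.Agent.Helper77.BT.APB

/-!
# Project BT: assembly, first part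
-/

set_option autoImplicit false

namespace Pool.Agent.Helper87.BF.Asm

open Pool.Agent.Helper27.VF Pool.Agent.Helper38.VF Pool.Agent.Helper38.VF.Asm2
open Pool.Agent.Helper52.VFBase Pool.Agent.Helper61.BT

universe u

theorem t_FRB : FrbStmt.{u} := Pool.Agent.Helper23.BT.frb loc orc
theorem t_DRB : DrbStmt.{u} := Pool.Agent.Helper48.BT.drb
theorem t_DXB : DxbStmt.{u} := Pool.Agent.Helper48.BT.dxb
theorem t_LMB : LmbStmt.{u} := Pool.Agent.Helper96.BT.lmb pth ora orb orc t_FRB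
theorem t_TCB (h : TabStmt.{u}) : TcbStmt.{u} := Pool.Agent.Helper48.BT.tcb pth h orb t_FRB
theorem t_TFB (h : TabStmt.{u}) : TfbStmt.{u} :=
  Pool.Agent.Helper39.BT.tfb h tob (t_TCB h) tod toe
theorem t_INB (h : TabStmt.{u}) (h2 : DvbStmt.{u}) (h3 : TrsStmt.{u}) : InbStmt.{u} :=
  Pool.Agent.Helper26.BT.inb h2 h3 (t_TFB h)
theorem t_PRJ : PrjStmt.{u} := Pool.Agent.Helper95.BT.prj
theorem t_TRG : TrgStmt.{u} := Pool.Agent.Helper78.BT.trg
theorem t_T2B : T2bStmt.{u} := Pool.Agent.Helper49.BT.t2b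
theorem t_TCH : TchStmt.{u} := Pool.Agent.Helper24.BT.tch t_TR1 t_T2B t_RTR
theorem t_RKB (h : PrkStmt.{u}) : RkbStmt.{u} :=
  Pool.Agent.Helper50.BT.rkb t_ACT t_FOX t_KUR t_PRJ t_TRG h t_TCH

end Pool.Agent.Helper87.BF.Asm
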