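import Mathlib.Algebra.Group.Subgroup.Basic
import Mathlib.Data.Set.Finite.Lattice
import Mathlib.Data.Set.Finite.Range
import Mathlib.Algebra.Group.Pointwise.Set.Finite
import Mathlib.Tactic.Group

/-!
# Infinitely many elements of a coset in a ball force an infinite quotient generating set

`τ : Γ → D` is a `D`-equivariant map (the index of the translate `g X` which contains an element),
`T` contains the labels of the edges between translates.
-/

set_option autoImplicit false

namespace Pool.Agent.Helper87.BF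

universe u

variable {Γ : Type u} [Group Γ]

/-- The labels reached in at most `n` steps. -/
theorem reach_finite (S : Set Γ) (D : Subgroup Γ) (τ : Γ → D) (T : Set D) (hTf : T.Finite)
    (hT : ∀ g s : Γ, s ∈ S → τ (g * s) = τ g ∨ (τ g)⁻¹ * τ (g * s) ∈ T) (v : Γ) (n : ℕ) :
    {d : D | ∃ l : List Γ, l.length ≤ n ∧ (∀ s ∈ l, s ∈ S) ∧ τ (v * l.prod) = d}.Finite := by
  induction n with
  | zero =>
    refine (Set.finite_singleton (τ v)).subset ?_
    rintro d ⟨l, hl, -, hd⟩
    have : l = [] := List.length_eq_zero_iff.1 (Nat.le_zero.1 hl)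
    subst this
    simp only [List.prod_nil, mul_one] at hd
    exact hd.symm
  | succ n ih =>
    refine (ih.union (Set.Finite.image2 (fun a t : D => a * t) ih hTf)).subset ?_
    rintro d ⟨l, hl, hS, hd⟩
    rcases List.eq_nil_or_concat l with h | ⟨l', s, h⟩
    · subst h
      exact Or.inl ⟨[], by simp, by simp, hd⟩
    · subst h
      have hl' : l'.length ≤ n := by
        simp only [List.concat_eq_append, List.length_append, List.length_cons,
          List.length_nil] at hl
        omega
      have hS' : ∀ t ∈ l', t ∈ S := fun t ht => hS t (by simp [ht])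
      have hs : s ∈ S := hS s (by simp)
      have e : v * (l'.concat s).prod = v * l'.prod * s := by
        simp [List.concat_eq_append, mul_assoc]
      rw [e] at hd
      rcases hT (v * l'.prod) s hs with h | h
      · exact Or.inl ⟨l', hl', hS', by rw [← h]; exact hd⟩
      · refine Or.inr ⟨τ (v * l'.prod), ⟨l', hl', hS', rfl⟩, _, h, ?_⟩
        rw [← hd]
        group

/-- If a ball of the word metric of `S` meets a coset `D b` in an infinite set, then `T` is
infinite. -/
theorem labels_infinite (S : Set Γ) (D : Subgroup Γ) (τ : Γ → D)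
    (hτ : ∀ (d : D) (g : Γ), τ ((d : Γ) * g) = d * τ g) (T : Set D)
    (hT : ∀ g s : Γ, s ∈ S → τ (g * s) = τ g ∨ (τ g)⁻¹ * τ (g * s) ∈ T) (b v : Γ) (N : ℕ)
    (hinf : {x : Γ | x * b⁻¹ ∈ D ∧
      ∃ l : List Γ, l.length ≤ N ∧ (∀ s ∈ l, s ∈ S) ∧ v * l.prod = x}.Infinite) :
    T.Infinite := by
  intro hTf
  refine hinf (((reach_finite S D τ T hTf hT v N).image
    (fun d : D => (d : Γ) * ((τ b : D) : Γ)⁻¹ * b)).subset ?_)
  rintro x ⟨hx, l, hl, hS, hlx⟩
  refine ⟨τ x, ⟨l, hl, hS, by rw [hlx]⟩, ?_⟩
  have h := hτ ⟨x * b⁻¹, hx⟩ b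
  have e : (x * b⁻¹) * b = x := by group
  simp only [e] at h
  show ((τ x : D) : Γ) * ((τ b : D) : Γ)⁻¹ * b = x
  rw [h]
  simp

end Pool.Agent.Helper87.BF
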