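import Pool.Agent.Helper52.VF.AP4
import Pool.Agent.Helper87.BF.NForm

/-!
# The labels of the quotient graph are infinite in number (form of MP_266b34_co)
-/

set_option autoImplicit false

namespace Pool.Agent.Helper87.BF

open Pool.Agent.Helper27.VF Pool.Agent.Helper58.VF Pool.Agent.Helper52.AP4

universe u

theorem redN {Γ : Type u} [Group Γ] {S : Set Γ} (D : Subgroup Γ) (T : Set D) (π : Γ → D)
    (hπ : ∀ (d : D) (x : Γ), π (d * x) = d * π x)
    (ha : ∀ x y, (cay S).Adj x y → π x = π y ∨ (π x)⁻¹ * π y ∈ T) (N : ℕ) (b : Γ)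
    (hinf : {x | x * b⁻¹ ∈ D ∧ IsProd S N x}.Infinite) : T.Infinite := by
  refine labels_infinite S D π hπ T ?_ b 1 N ?_
  · intro g s hs
    by_cases h : s = 1
    · left; rw [h, mul_one]
    · have hadj : (cay S).Adj g (g * s) := by
        refine cay_adj.2 ⟨?_, Or.inl ?_⟩
        · intro h2
          exact h (mul_left_cancel (a := g) (by rw [← h2, mul_one]))
        · rw [inv_mul_cancel_left]; exact hs
      rcases ha _ _ hadj with h3 | h3
      · exact Or.inl h3.symm
      · exact Or.inr h3
  · refine hinf.mono ?_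
    rintro x ⟨hx, l, hl, hS, hp⟩
    exact ⟨hx, l, hl, hS, by rw [one_mul]; exact hp⟩

end Pool.Agent.Helper87.BF
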